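import Mathlib

set_option autoImplicit false

namespace Pool.Agent.Results.MP_3c7ff8_pr.Mixing

open MeasureTheory ProbabilityTheory Filter Topology
open scoped ENNReal

/-- Configurations `S^(ℤ^d)`. -/
abbrev Cfg (d : ℕ) (S : Type) : Type := (Fin d → ℤ) → S

/-- The shift `(σ^k x)_i = x_(i+k)`. -/
def shift {d : ℕ} {S : Type} (k : Fin d → ℤ) (x : Cfg d S) : Cfg d S := fun i => x (i + k)

/-- The cylinder of configurations equal to `u` on the finite set `A`. -/
def cyl {d : ℕ} {S : Type} (A : Finset (Fin d → ℤ)) (u : Cfg d S) : Set (Cfg d S) :=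
  {x | ∀ i ∈ A, x i = u i}

variable {d : ℕ} {S : Type} [MeasurableSpace S]

/-- The transition kernel of the PCA with neighbourhood `N` and local rule `f`: new symbols are
independent, the one at site `i` having law `f ((x_(i+n))_(n ∈ N))`. -/
noncomputable def kernel (N : Finset (Fin d → ℤ)) (f : (N → S) → ProbabilityMeasure S)
    (x : Cfg d S) : Measure (Cfg d S) :=
  Measure.infinitePi fun i => (f (fun n : N => x (i + n)) : Measure S)

/-- `μ Φ^t`. -/
noncomputable def evolve (N : Finset (Fin d → ℤ)) (f : (N → S) → ProbabilityMeasure S) (t : ℕ)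
    (μ : Measure (Cfg d S)) : Measure (Cfg d S) :=
  (fun ν : Measure (Cfg d S) => ν.bind (kernel N f))^[t] μ

/-- The PCA is ergodic with invariant measure `π`: `π` is the unique invariant probability measure
and `μ Φ^t` converges to `π` on every cylinder, for every initial probability measure `μ`. -/
def IsErgodic (N : Finset (Fin d → ℤ)) (f : (N → S) → ProbabilityMeasure S)
    (π : Measure (Cfg d S)) : Prop :=
  IsProbabilityMeasure π ∧ π.bind (kernel N f) = π ∧
    (∀ ν : Measure (Cfg d S), IsProbabilityMeasure ν → ν.bind (kernel N f) = ν → ν = π) ∧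
    ∀ μ : Measure (Cfg d S), IsProbabilityMeasure μ → ∀ (A : Finset (Fin d → ℤ)) (u : Cfg d S),
      Tendsto (fun t => (evolve N f t μ).real (cyl A u)) atTop (𝓝 (π.real (cyl A u)))

variable [Fintype S] [DiscreteMeasurableSpace S] {N : Finset (Fin d → ℤ)}
  {f : (N → S) → ProbabilityMeasure S}

instance (x : Cfg d S) : IsProbabilityMeasure (kernel N f x) := by unfold kernel; infer_instance

lemma fac {β : Type} [Nonempty β] {F : Cfg d S → β} {A : Finset (Fin d → ℤ)} (h : DependsOn F A) :
    ∃ G : (A → S) → β, F = fun x => G (A.restrict x) :=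
  (Function.factorsThrough_iff F).1 fun _ _ hxy => h fun i hi => congrFun hxy ⟨i, hi⟩

lemma loc_meas {F : Cfg d S → ℝ≥0∞} {A : Finset (Fin d → ℤ)} (h : DependsOn F A) : Measurable F := by
  obtain ⟨G, rfl⟩ := fac h
  exact (Measurable.of_discrete (f := G)).comp (Finset.measurable_restrict A)

noncomputable def P (N : Finset (Fin d → ℤ)) (f : (N → S) → ProbabilityMeasure S)
    (F : Cfg d S → ℝ≥0∞) (x : Cfg d S) : ℝ≥0∞ := ∫⁻ y, F y ∂(kernel N f x)

def grow (N A : Finset (Fin d → ℤ)) : Finset (Fin d → ℤ) := Finset.image₂ (· + ·) A N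

lemma P_dep {F : Cfg d S → ℝ≥0∞} {A : Finset (Fin d → ℤ)} (h : DependsOn F A) :
    DependsOn (P N f F) (grow N A) := by
  obtain ⟨G, rfl⟩ := fac h
  intro x y hxy
  unfold P kernel
  rw [lintegral_restrict_infinitePi _ Measurable.of_discrete,
    lintegral_restrict_infinitePi _ Measurable.of_discrete]
  congr 2
  funext i
  congr 2
  funext n
  exact hxy _ (Finset.mem_image₂_of_mem i.2 n.2)

lemma meas_kernel : Measurable (kernel N f) := by
  refine Measure.measurable_of_measurable_coe _ fun s hs => ?_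
  induction s, hs using MeasurableSpace.induction_on_inter generateFrom_measurableCylinders.symm
    isPiSystem_measurableCylinders with
  | empty => simp
  | basic t ht =>
    obtain ⟨A, T, hT, rfl⟩ := (mem_measurableCylinders t).1 ht
    have h : DependsOn ((cylinder A T).indicator (1 : Cfg d S → ℝ≥0∞)) A :=
      dependsOn_cylinder_indicator_const (α := fun _ => S) T (1 : ℝ≥0∞)
    have := loc_meas (P_dep (N := N) (f := f) h)
    unfold P at this
    simpa only [lintegral_indicator_one (MeasurableSet.cylinder (α := fun _ => S) A hT)] using this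
  | compl t ht ih =>
    simp_rw [prob_compl_eq_one_sub ht]
    exact ih.const_sub _
  | iUnion g hd hm ih =>
    simp_rw [measure_iUnion hd hm]
    exact Measurable.ennreal_tsum ih

lemma P_mul {F G : Cfg d S → ℝ≥0∞} {A B : Finset (Fin d → ℤ)} (hF : DependsOn F A) (hG : DependsOn G B)
    (h : Disjoint A B) : P N f (F * G) = P N f F * P N f G := by
  funext x
  refine lintegral_mul_eq_lintegral_mul_lintegral_of_indepFun (loc_meas hF) (loc_meas hG) ?_
  obtain ⟨F', rfl⟩ := fac hF
  obtain ⟨G', rfl⟩ := fac hG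
  have h1 : iIndepFun (fun i (y : Cfg d S) => y i) (kernel N f x) :=
    iIndepFun_infinitePi (X := fun _ ω => ω) (by fun_prop)
  exact (h1.indepFun_finset A B h fun i => measurable_pi_apply i).comp
    (Measurable.of_discrete (f := F')) (Measurable.of_discrete (f := G'))

lemma iter_dep (t : ℕ) {F : Cfg d S → ℝ≥0∞} {A : Finset (Fin d → ℤ)} (h : DependsOn F A) :
    DependsOn ((P N f)^[t] F) ((grow N)^[t] A) := by
  induction t with
  | zero => exact h
  | succ t ih => rw [Function.iterate_succ_apply', Function.iterate_succ_apply']; exact P_dep ih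

lemma P_prod {ι : Type} (s : Finset ι) {F : ι → Cfg d S → ℝ≥0∞} {B : ι → Finset (Fin d → ℤ)}
    (hF : ∀ j, DependsOn (F j) (B j)) (h : ∀ i j, i ≠ j → Disjoint (B i) (B j)) :
    P N f (∏ j ∈ s, F j) = ∏ j ∈ s, P N f (F j) := by
  classical
  induction s using Finset.induction_on with
  | empty => funext x; simp [P]
  | insert a s ha ih =>
    have h1 : DependsOn (∏ j ∈ s, F j) (s.biUnion B) := by
      intro x y hxy
      simp only [Finset.prod_apply]
      exact Finset.prod_congr rfl fun j hj => hF j fun i hi => hxy i (by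
        simpa using ⟨j, hj, hi⟩)
    rw [Finset.prod_insert ha, Finset.prod_insert ha, P_mul (hF a) h1, ih]
    rw [Finset.disjoint_biUnion_right]
    exact fun j hj => h a j (by rintro rfl; exact ha hj)

lemma iter_prod {ι : Type} (s : Finset ι) {F : ι → Cfg d S → ℝ≥0∞} (t : ℕ)
    (h : ∀ m < t, ∃ B : ι → Finset (Fin d → ℤ), (∀ j, DependsOn ((P N f)^[m] (F j)) (B j)) ∧
      ∀ i j, i ≠ j → Disjoint (B i) (B j)) :
    (P N f)^[t] (∏ j ∈ s, F j) = ∏ j ∈ s, (P N f)^[t] (F j) := by
  induction t with
  | zero => rfl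
  | succ t ih =>
    obtain ⟨B, h1, h2⟩ := h t (by omega)
    rw [Function.iterate_succ_apply', ih fun m hm => h m (by omega), P_prod s h1 h2]
    simp only [Function.iterate_succ_apply']

lemma evolve_lint (t : ℕ) {F : Cfg d S → ℝ≥0∞} {A : Finset (Fin d → ℤ)} (h : DependsOn F A) :
    ∀ ν : Measure (Cfg d S), ∫⁻ y, F y ∂(evolve N f t ν) = ∫⁻ x, (P N f)^[t] F x ∂ν := by
  induction t with
  | zero => intro ν; rfl
  | succ t ih =>
    intro ν
    have := ih (ν.bind (kernel N f))
    rw [Measure.lintegral_bind meas_kernel.aemeasurable (loc_meas (iter_dep t h)).aemeasurable] at this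
    rw [Function.iterate_succ_apply', evolve, Function.iterate_succ_apply]
    exact this

omit [Fintype S] [DiscreteMeasurableSpace S] in
lemma meas_shift (k : Fin d → ℤ) : Measurable (shift (S := S) k) := by unfold shift; fun_prop

omit [Fintype S] [DiscreteMeasurableSpace S] in
lemma kernel_shift (k : Fin d → ℤ) (x : Cfg d S) :
    kernel N f (shift k x) = (kernel N f x).map (shift k) := by
  unfold kernel
  refine Eq.trans ?_ (Measure.map_infinitePi_infinitePi_of_inj
    (P := fun i => (f (fun n : N => x (i + n)) : Measure S)) (add_left_injective k)).symm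
  simp only [shift, add_right_comm _ _ k]

lemma iter_shift (k : Fin d → ℤ) (t : ℕ) {F : Cfg d S → ℝ≥0∞} {A : Finset (Fin d → ℤ)}
    (h : DependsOn F A) : (P N f)^[t] (F ∘ shift k) = (P N f)^[t] F ∘ shift k := by
  induction t with
  | zero => rfl
  | succ t ih =>
    rw [Function.iterate_succ_apply', Function.iterate_succ_apply', ih]
    funext x
    simp only [P, Function.comp, kernel_shift]
    rw [lintegral_map (loc_meas (iter_dep t h)) (meas_shift k)]

omit [MeasurableSpace S] [Fintype S] [DiscreteMeasurableSpace S] in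
lemma dep_shift (k : Fin d → ℤ) {F : Cfg d S → ℝ≥0∞} {A : Finset (Fin d → ℤ)} (h : DependsOn F A) :
    DependsOn (F ∘ shift k) (A.image (· + k)) :=
  fun _ _ hxy => h fun i hi => hxy _ (by simpa using hi)

omit [MeasurableSpace S] [Fintype S] [DiscreteMeasurableSpace S] in
lemma dep_cyl (A : Finset (Fin d → ℤ)) (u : Cfg d S) :
    DependsOn ((cyl A u).indicator (1 : Cfg d S → ℝ≥0∞)) A := by
  intro x y hxy
  have : x ∈ cyl A u ↔ y ∈ cyl A u := forall₂_congr fun i hi => by rw [hxy i hi]
  by_cases hx : x ∈ cyl A u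
  · rw [Set.indicator_of_mem hx, Set.indicator_of_mem (this.1 hx)]; rfl
  · rw [Set.indicator_of_notMem hx, Set.indicator_of_notMem (mt this.2 hx)]

omit [Fintype S] in
lemma meas_cyl (A : Finset (Fin d → ℤ)) (u : Cfg d S) : MeasurableSet (cyl A u) :=
  measurableSet_setOf.2 (Measurable.forall fun k => measurable_const.imp
    ((Measurable.of_discrete (f := fun s : S => s = u k)).comp (measurable_pi_apply k)))

omit [Fintype S] [DiscreteMeasurableSpace S] in
lemma iter_le (t : ℕ) {F : Cfg d S → ℝ≥0∞} (h : ∀ x, F x ≤ 1) : ∀ x, (P N f)^[t] F x ≤ 1 := by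
  induction t with
  | zero => exact h
  | succ t ih =>
    intro x
    rw [Function.iterate_succ_apply']
    exact (lintegral_mono ih).trans (by simp)

lemma prod_sub {ι : Type} (s : Finset ι) {a b : ι → ℝ} (ha : ∀ j, |a j| ≤ 1) (hb : ∀ j, |b j| ≤ 1) :
    |∏ j ∈ s, a j - ∏ j ∈ s, b j| ≤ ∑ j ∈ s, |a j - b j| := by
  classical
  induction s using Finset.induction_on with
  | empty => simp
  | insert c s hc ih =>
    rw [Finset.prod_insert hc, Finset.prod_insert hc, Finset.sum_insert hc]
    have h1 : |∏ j ∈ s, a j| ≤ 1 := by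
      rw [Finset.abs_prod]; exact Finset.prod_le_one (fun _ _ => abs_nonneg _) fun j _ => ha j
    calc _ = |(a c - b c) * ∏ j ∈ s, a j + b c * (∏ j ∈ s, a j - ∏ j ∈ s, b j)| := by congr 1; ring
      _ ≤ _ := by
        refine (abs_add_le _ _).trans ?_
        rw [abs_mul, abs_mul]
        exact add_le_add (mul_le_of_le_one_right (abs_nonneg _) h1)
          ((mul_le_of_le_one_left (abs_nonneg _) (hb c)).trans ih)

lemma shift_inv {π : Measure (Cfg d S)} (h : IsErgodic N f π) (k : Fin d → ℤ) : π.map (shift k) = π := by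
  obtain ⟨h1, h2, h3, -⟩ := h
  refine h3 _ (Measure.isProbabilityMeasure_map (meas_shift k).aemeasurable) (Measure.ext fun s hs => ?_)
  rw [Measure.bind_apply hs meas_kernel.aemeasurable,
    lintegral_map (f := fun a => kernel N f a s) ((Measure.measurable_coe hs).comp meas_kernel) (meas_shift k),
    Measure.map_apply (meas_shift k) hs]
  conv_rhs => rw [← h2, Measure.bind_apply (meas_shift k hs) meas_kernel.aemeasurable]
  simp only [kernel_shift, Measure.map_apply (meas_shift k) hs]

lemma multi {π : Measure (Cfg d S)} (h : IsErgodic N f π) {ι : Type} [Fintype ι]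
    (A : ι → Finset (Fin d → ℤ)) (u : ι → Cfg d S) {ε : ℝ} (hε : 0 < ε) :
    ∃ R : ℝ, ∀ k : ι → Fin d → ℤ, (∀ i j, i ≠ j → R ≤ ‖k i - k j‖) →
      |π.real (⋂ j, shift (k j) ⁻¹' cyl (A j) (u j)) - ∏ j, π.real (cyl (A j) (u j))| < ε := by
  classical
  have hs := shift_inv h
  obtain ⟨h1, h2, -, h4⟩ := h
  set I : ι → Cfg d S → ℝ≥0∞ := fun j => (cyl (A j) (u j)).indicator 1 with hI
  set r : ℕ → ι → Cfg d S → ℝ := fun t j x => ((P N f)^[t] (I j) x).toReal with hr
  have I1 : ∀ t j x, (P N f)^[t] (I j) x ≤ 1 := fun t j =>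
    iter_le t fun x => Set.indicator_le' (fun _ _ => le_rfl) (fun _ _ => zero_le) x
  have r1 : ∀ t j x, |r t j x| ≤ 1 := fun t j x => by
    rw [abs_of_nonneg ENNReal.toReal_nonneg]
    exact ENNReal.toReal_le_of_le_ofReal zero_le_one (by simpa using I1 t j x)
  have c1 : ∀ j, |π.real (cyl (A j) (u j))| ≤ 1 := fun j => by
    rw [abs_of_nonneg measureReal_nonneg]; exact measureReal_le_one
  have rm : ∀ t j, Measurable (r t j) := fun t j => (loc_meas (iter_dep t (dep_cyl _ _))).ennreal_toReal
  have b2 : ∀ t j x, ‖|r t j x - π.real (cyl (A j) (u j))|‖ ≤ 2 := fun t j x => by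
    rw [Real.norm_eq_abs, abs_abs]
    exact (abs_sub _ _).trans (by linarith [r1 t j x, c1 j])
  have lim : ∀ j, Tendsto (fun t => ∫ x, |r t j x - π.real (cyl (A j) (u j))| ∂π) atTop (𝓝 0) := by
    intro j
    have := tendsto_integral_of_dominated_convergence (μ := π) (f := fun _ => (0 : ℝ)) (fun _ => 2)
      (fun t => ((rm t j).sub_const _).abs.aestronglyMeasurable) (integrable_const _)
      (fun t => Eventually.of_forall (b2 t j)) (Eventually.of_forall fun x => ?_)
    · simpa using this
    have a1 := h4 (Measure.dirac x) inferInstance (A j) (u j)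
    have a2 : ∀ t, (evolve N f t (Measure.dirac x)).real (cyl (A j) (u j)) = r t j x := by
      intro t
      rw [Measure.real, ← lintegral_indicator_one (meas_cyl _ _), evolve_lint t (dep_cyl _ _),
        lintegral_dirac' _ (loc_meas (iter_dep t (dep_cyl _ _)))]
    simp_rw [a2] at a1
    simpa using (a1.sub_const (π.real (cyl (A j) (u j)))).abs
  have lim2 := tendsto_finsetSum Finset.univ fun j _ => lim j
  rw [Finset.sum_const_zero] at lim2
  obtain ⟨t, ht⟩ := (lim2.eventually (gt_mem_nhds hε)).exists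
  obtain ⟨M, hM⟩ : ∃ M : ℝ, ∀ m < t, ∀ j, ∀ a ∈ (grow N)^[m] (A j), ‖a‖ ≤ M := by
    obtain ⟨M, hM⟩ := (((Finset.range t).biUnion fun m => Finset.univ.biUnion fun j =>
      (grow N)^[m] (A j)).image norm).bddAbove
    exact ⟨M, fun m hm j a ha => hM (by simpa using ⟨a, ⟨m, hm, j, ha⟩, rfl⟩)⟩
  refine ⟨2 * M + 1, fun k hk => lt_of_le_of_lt ?_ ht⟩
  have e1 : (P N f)^[t] (∏ j, I j ∘ shift (k j)) = ∏ j, (P N f)^[t] (I j) ∘ shift (k j) := by
    rw [iter_prod]
    · exact Finset.prod_congr rfl fun j _ => iter_shift _ _ (dep_cyl _ _)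
    intro m hm
    refine ⟨fun j => ((grow N)^[m] (A j)).image (· + k j), fun j => ?_, fun i j hij => ?_⟩
    · rw [iter_shift _ _ (dep_cyl _ _)]
      exact dep_shift _ (iter_dep m (dep_cyl _ _))
    · rw [Finset.disjoint_left]
      intro z hz hz'
      obtain ⟨a, ha, rfl⟩ := Finset.mem_image.1 hz
      obtain ⟨b, hb, hab⟩ := Finset.mem_image.1 hz'
      have a1 : k i - k j = b - a := by
        rw [sub_eq_sub_iff_add_eq_add, add_comm (k i), hab]
      have a2 := hk i j hij
      rw [a1] at a2
      linarith [norm_sub_le b a, hM m hm i a ha, hM m hm j b hb]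
  have e2 : evolve N f t π = π := Function.iterate_fixed h2 t
  have e3 : DependsOn (∏ j, I j ∘ shift (k j)) (Finset.univ.biUnion fun j => (A j).image (· + k j)) := by
    intro x y hxy
    simp only [Finset.prod_apply]
    exact Finset.prod_congr rfl fun j _ => dep_shift (k j) (dep_cyl _ _) fun i hi => hxy i (by
      simpa using ⟨j, by simpa using hi⟩)
  have e4 : (∏ j, I j ∘ shift (k j)) = (⋂ j, shift (k j) ⁻¹' cyl (A j) (u j)).indicator 1 := by
    funext x
    by_cases hx : x ∈ ⋂ j, shift (k j) ⁻¹' cyl (A j) (u j)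
    · rw [Set.indicator_of_mem hx, Finset.prod_apply]
      exact Finset.prod_eq_one fun j _ => 
        Set.indicator_of_mem (s := cyl (A j) (u j)) (Set.mem_iInter.1 hx j) _
    · rw [Set.indicator_of_notMem hx, Finset.prod_apply]
      obtain ⟨j, hj⟩ := not_forall.1 (mt Set.mem_iInter.2 hx)
      exact Finset.prod_eq_zero (Finset.mem_univ j) (Set.indicator_of_notMem (s := cyl (A j) (u j)) hj _)
  have e5 := evolve_lint (N := N) (f := f) t e3 π
  have m1 := loc_meas (iter_dep (N := N) (f := f) t e3)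
  rw [e1] at m1
  rw [e1, e2, e4, lintegral_indicator_one (MeasurableSet.iInter fun j => meas_shift _ (meas_cyl _ _))] at e5
  have e6 : π.real (⋂ j, shift (k j) ⁻¹' cyl (A j) (u j)) = ∫ x, ∏ j, r t j (shift (k j) x) ∂π := by
    rw [Measure.real, e5, ← integral_toReal m1.aemeasurable (Eventually.of_forall fun x => ?_)]
    · simp [hr]
    · rw [Finset.prod_apply]
      exact ENNReal.prod_lt_top fun j _ => (I1 t j _).trans_lt ENNReal.one_lt_top
  have i1 : Integrable (fun x => ∏ j, r t j (shift (k j) x)) π := by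
    refine Integrable.of_bound (Finset.measurable_fun_prod _ fun j _ =>
      (rm t j).comp (meas_shift _)).aestronglyMeasurable 1 (Eventually.of_forall fun x => ?_)
    rw [Real.norm_eq_abs, Finset.abs_prod]
    exact Finset.prod_le_one (fun _ _ => abs_nonneg _) fun j _ => r1 _ _ _
  have i2 : ∀ j, Integrable (fun x => |r t j (shift (k j) x) - π.real (cyl (A j) (u j))|) π := fun j =>
    Integrable.of_bound (((rm t j).comp (meas_shift _)).sub_const _).abs.aestronglyMeasurable 2
      (Eventually.of_forall fun x => b2 _ _ _)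
  have e7 : ∏ j, π.real (cyl (A j) (u j)) = ∫ _x, ∏ j, π.real (cyl (A j) (u j)) ∂π := by simp
  rw [e6, e7, ← integral_sub i1 (integrable_const _)]
  refine abs_integral_le_integral_abs.trans ((integral_mono (i1.sub (integrable_const _)).abs
    (integrable_finsetSum _ fun j _ => i2 j) fun x => prod_sub _ (fun j => r1 _ _ _) c1).trans (le_of_eq ?_))
  rw [integral_finsetSum _ fun j _ => i2 j]
  refine Finset.sum_congr rfl fun j _ => ?_
  conv_rhs => rw [← hs (k j)]
  rw [integral_map (meas_shift _).aemeasurable ((rm t j).sub_const _).abs.aestronglyMeasurable, hs]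

/-- The invariant measure of every ergodic PCA is spatially mixing, and `n`-fold mixing for all `n`. -/
theorem result (d : ℕ) (S : Type) [Fintype S] [MeasurableSpace S] [DiscreteMeasurableSpace S]
    (N : Finset (Fin d → ℤ)) (f : (N → S) → ProbabilityMeasure S) (π : Measure (Cfg d S))
    (h : IsErgodic N f π) :
    (∀ (A B : Finset (Fin d → ℤ)) (u v : Cfg d S) (ε : ℝ), 0 < ε → ∃ R : ℝ, ∀ k : Fin d → ℤ, R ≤ ‖k‖ →
      |π.real (cyl A u ∩ shift k ⁻¹' cyl B v) - π.real (cyl A u) * π.real (cyl B v)| < ε) ∧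
    (∀ (n : ℕ) (A : Fin n → Finset (Fin d → ℤ)) (u : Fin n → Cfg d S) (ε : ℝ), 0 < ε →
      ∃ R : ℝ, ∀ k : Fin n → Fin d → ℤ, (∀ i j, i ≠ j → R ≤ ‖k i - k j‖) →
        |π.real (⋂ j, shift (k j) ⁻¹' cyl (A j) (u j)) - ∏ j, π.real (cyl (A j) (u j))| < ε) := by
  refine ⟨fun A B u v ε hε => ?_, fun n A u ε hε => multi h A u hε⟩
  obtain ⟨R, hR⟩ := multi h (ι := Bool) (fun b => cond b A B) (fun b => cond b u v) hε
  refine ⟨R, fun k hk => ?_⟩
  have := hR (fun b => cond b 0 k) (by rintro (_ | _) (_ | _) <;> simp [hk])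
  have e : shift (S := S) (0 : Fin d → ℤ) = id := by funext x i; simp [shift]
  have e2 : (⋂ j, shift (bif j then 0 else k) ⁻¹' cyl (bif j then A else B) (bif j then u else v)) =
      cyl A u ∩ shift k ⁻¹' cyl B v := by
    ext x; simp [e, and_comm]
  simpa [e2] using this

end Pool.Agent.Results.MP_3c7ff8_pr.Mixing
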